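import Mathlib

/-!
# Digit block certificates for binomial coefficients near `t * 2 ^ k`

For fixed `t`, `r`, `m` and `X = 2 ^ k` the number `m! * (t * X + r).choose m` is a polynomial in `X`
with integer coefficients.  Long division by the odd part `D` of `m!` gives base `X` digits which
are affine in `X`; when `k` is increased by a multiple of the order of `2` modulo `D`, every digit
is prolonged by copies of one fixed block.
-/

set_option autoImplicit false

namespace Pool.Agent.LibPas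

/-- Parity of the number of ones in the binary expansion. -/
def P (x : ℕ) : ℕ := (Nat.digits 2 x).sum % 2

theorem P_zero : P 0 = 0 := by simp [P]

theorem P_lt (x : ℕ) : P x < 2 := Nat.mod_lt _ (by norm_num)

theorem P_bit (x b : ℕ) (hb : b < 2) : P (2 * x + b) = (P x + b) % 2 := by
  unfold P
  rcases Nat.eq_zero_or_pos (2 * x + b) with h | h
  · have h1 : x = 0 := by omega
    have h2 : b = 0 := by omega
    subst h1; subst h2; simp
  · rw [Nat.digits_def' (by norm_num) h]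
    have h1 : (2 * x + b) % 2 = b := by omega
    have h2 : (2 * x + b) / 2 = x := by omega
    rw [h1, h2, List.sum_cons]; omega

theorem P_half (x : ℕ) : P x = (P (x / 2) + x % 2) % 2 := by
  have h : x = 2 * (x / 2) + x % 2 := by omega
  conv_lhs => rw [h]
  exact P_bit _ _ (by omega)

theorem P_split : ∀ (w a b : ℕ), a < 2 ^ w → P (a + 2 ^ w * b) = (P a + P b) % 2
  | 0, a, b, h => by
    have h1 : a = 0 := by simpa using h
    subst h1
    have := P_lt b
    simp [P_zero]; omega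
  | w + 1, a, b, h => by
    have h2 : a / 2 < 2 ^ w := by rw [pow_succ] at h; omega
    have ih := P_split w (a / 2) b h2
    have e : a + 2 ^ (w + 1) * b = 2 * (a / 2 + 2 ^ w * b) + a % 2 := by
      rw [pow_succ, mul_comm (2 ^ w) 2, mul_assoc]; omega
    rw [e, P_bit _ _ (by omega), ih, P_half a]; omega

theorem P_shift (w b : ℕ) : P (2 ^ w * b) = P b := by
  have h := P_split w 0 b (by positivity)
  have := P_lt b
  rw [Nat.zero_add, P_zero] at h
  omega

theorem P_xor : ∀ (x y : ℕ), P (x ^^^ y) = (P x + P y) % 2 := by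
  intro x
  induction x using Nat.strong_induction_on with
  | _ x ih =>
    intro y
    rcases Nat.eq_zero_or_pos x with h | h
    · subst h
      have := P_lt y
      rw [Nat.zero_xor, P_zero]; omega
    · have h1 := ih (x / 2) (by omega) (y / 2)
      have h2 : (x ^^^ y) / 2 = x / 2 ^^^ y / 2 := Nat.xor_div_two
      have h3 : (x ^^^ y) % 2 = (x + y) % 2 := Nat.xor_mod_two_eq
      rw [P_half (x ^^^ y), h2, h1, h3, P_half x, P_half y]; omega

/-- Fast parity of the number of ones, for numbers below `2 ^ (2 ^ s)`. -/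
def par : ℕ → ℕ → ℕ
  | 0, x => x % 2
  | s + 1, x => par s ((x % 2 ^ (2 ^ s)) ^^^ (x / 2 ^ (2 ^ s)))

theorem par_spec : ∀ (s x : ℕ), x < 2 ^ (2 ^ s) → par s x = P x
  | 0, x, h => by
    have h1 : x = 0 ∨ x = 1 := by
      have : x < 2 := by simpa using h
      omega
    rcases h1 with rfl | rfl <;> simp [par, P]
  | s + 1, x, h => by
    have hw : (2 : ℕ) ^ (2 ^ (s + 1)) = 2 ^ (2 ^ s) * 2 ^ (2 ^ s) := by
      rw [← pow_add]; congr 1; ring
    have h1 : x % 2 ^ (2 ^ s) < 2 ^ (2 ^ s) := Nat.mod_lt _ (by positivity)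
    have h2 : x / 2 ^ (2 ^ s) < 2 ^ (2 ^ s) := by
      rw [hw] at h; exact Nat.div_lt_of_lt_mul h
    have h3 := par_spec s _ (Nat.xor_lt_two_pow h1 h2)
    have h4 := P_split (2 ^ s) (x % 2 ^ (2 ^ s)) (x / 2 ^ (2 ^ s)) h1
    rw [Nat.mod_add_div] at h4
    rw [par, h3, P_xor, h4]

/-- Evaluation of a coefficient list. -/
def ev : List ℤ → ℤ → ℤ
  | [], _ => 0
  | a :: as, X => a + X * ev as X

/-- Multiplication of a coefficient list by `t * X + c`. -/
def mulLin (t c : ℤ) : ℤ → List ℤ → List ℤ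
  | p, [] => [p * t]
  | p, a :: as => (p * t + c * a) :: mulLin t c a as

theorem ev_mulLin (t c X : ℤ) : ∀ (l : List ℤ) (p : ℤ),
    ev (mulLin t c p l) X = t * p + (t * X + c) * ev l X
  | [], p => by simp [mulLin, ev, mul_comm]
  | a :: as, p => by
    simp only [mulLin, ev, ev_mulLin t c X as a]; ring

/-- Coefficients of `∏ i < m, (t * X + r - i)`. -/
def coeffs (t r : ℤ) : ℕ → List ℤ
  | 0 => [1]
  | m + 1 => mulLin t (r - m) 0 (coeffs t r m)

theorem ev_coeffs (t r X : ℤ) : ∀ m : ℕ,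
    ev (coeffs t r m) X = ∏ i ∈ Finset.range m, (t * X + r - i)
  | 0 => by simp [coeffs, ev]
  | m + 1 => by
    rw [coeffs, ev_mulLin, ev_coeffs t r X m, Finset.prod_range_succ]; ring

/-- The next remainder of the long division (from below). -/
def nxt (D inv R : ℕ) (a : ℤ) : ℕ :=
  if (((R : ℤ) - a) * inv) % (D : ℤ) = 0 then (if a < R then D else 0)
  else ((((R : ℤ) - a) * inv) % (D : ℤ)).toNat

/-- Long division with checks; returns a flag and two parity sums. -/
def run (D Q k0 inv : ℕ) : ℕ → List ℤ → Bool × ℕ × ℕ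
  | R, [] => (decide (R = 0), 0, 0)
  | R, a :: as =>
    let R' := nxt D inv R a
    let A := (((R' : ℤ) * 2 ^ k0 + a - R) / (D : ℤ)).toNat
    let B := R' * Q
    let rest := run D Q k0 inv R' as
    (decide ((D : ℤ) * A + R = (R' : ℤ) * 2 ^ k0 + a) && decide (A < 2 ^ k0) && decide (R' ≤ D) &&
      decide (A < 2 ^ (2 ^ 13)) && decide (B < 2 ^ (2 ^ 13)) && rest.1,
      par 13 A + rest.2.1, par 13 B + rest.2.2)

theorem blocks (D Q d R : ℕ) (hQ : D * Q + 1 = 2 ^ d) (hR : R ≤ D) : ∀ j : ℕ,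
    ∃ G : ℕ, D * G + R = R * 2 ^ (d * j) ∧ G < 2 ^ (d * j) ∧ P G = (j * P (R * Q)) % 2
  | 0 => ⟨0, by simp, by simp, by simp [P_zero]⟩
  | j + 1 => by
    obtain ⟨G, h1, h2, h3⟩ := blocks D Q d R hQ hR j
    have hRQ : R * Q + 1 ≤ 2 ^ d := by
      have := Nat.mul_le_mul_right Q hR
      omega
    refine ⟨G + 2 ^ (d * j) * (R * Q), ?_, ?_, ?_⟩
    · have e : 2 ^ (d * (j + 1)) = 2 ^ (d * j) * 2 ^ d := by rw [← pow_add]; congr 1
      rw [e, ← hQ]
      have : D * (G + 2 ^ (d * j) * (R * Q)) + R = (D * G + R) + 2 ^ (d * j) * (R * Q) * D := by ring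
      rw [this, h1]; ring
    · have e : 2 ^ (d * (j + 1)) = 2 ^ (d * j) * 2 ^ d := by rw [← pow_add]; congr 1
      rw [e]
      calc G + 2 ^ (d * j) * (R * Q) < 2 ^ (d * j) + 2 ^ (d * j) * (R * Q) := by omega
        _ = 2 ^ (d * j) * (R * Q + 1) := by ring
        _ ≤ 2 ^ (d * j) * 2 ^ d := Nat.mul_le_mul_left _ hRQ
    · rw [P_split _ _ _ h2, h3]
      have : (j + 1) * P (R * Q) = j * P (R * Q) + P (R * Q) := by ring
      rw [this]; omega

theorem run_sound (D Q k0 inv d : ℕ) (hQ : D * Q + 1 = 2 ^ d) :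
    ∀ (as : List ℤ) (R : ℕ), (run D Q k0 inv R as).1 = true → ∀ j : ℕ, ∃ V : ℕ,
      (D : ℤ) * V = ev as (2 ^ (k0 + d * j)) - R ∧
      P V = ((run D Q k0 inv R as).2.1 + j * (run D Q k0 inv R as).2.2) % 2
  | [], R, h, j => by
    have h0 : R = 0 := by simpa [run] using h
    subst h0
    exact ⟨0, by simp [ev], by simp [run, P_zero]⟩
  | a :: as, R, h, j => by
    simp only [run] at h ⊢
    obtain ⟨R', hR'⟩ : ∃ R', R' = nxt D inv R a := ⟨_, rfl⟩
    rw [← hR'] at h ⊢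
    obtain ⟨A, hA⟩ : ∃ A, A = (((R' : ℤ) * 2 ^ k0 + a - R) / (D : ℤ)).toNat := ⟨_, rfl⟩
    rw [← hA] at h ⊢
    simp only [Bool.and_eq_true, decide_eq_true_eq] at h
    obtain ⟨⟨⟨⟨⟨h1, h2⟩, h3⟩, h4⟩, h5⟩, h6⟩ := h
    obtain ⟨V', hV1, hV2⟩ := run_sound D Q k0 inv d hQ as R' h6 j
    obtain ⟨G, hG1, hG2, hG3⟩ := blocks D Q d R' hQ h3 j
    rw [par_spec 13 A h4, par_spec 13 (R' * Q) h5]
    have hX : (2 : ℕ) ^ (k0 + d * j) = 2 ^ k0 * 2 ^ (d * j) := pow_add _ _ _
    have hlt : A + 2 ^ k0 * G < 2 ^ (k0 + d * j) := by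
      rw [hX]
      calc A + 2 ^ k0 * G < 2 ^ k0 + 2 ^ k0 * G := by omega
        _ = 2 ^ k0 * (G + 1) := by ring
        _ ≤ 2 ^ k0 * 2 ^ (d * j) := Nat.mul_le_mul_left _ hG2
    refine ⟨A + 2 ^ k0 * G + 2 ^ (k0 + d * j) * V', ?_, ?_⟩
    · have hG1' : (D : ℤ) * G + R' = R' * 2 ^ (d * j) := by exact_mod_cast hG1
      have e1 : (2 : ℤ) ^ (k0 + d * j) = 2 ^ k0 * 2 ^ (d * j) := pow_add _ _ _
      rw [e1] at hV1 ⊢
      push_cast
      rw [e1, ev]
      have e2 : (D : ℤ) * (A + 2 ^ k0 * G + 2 ^ k0 * 2 ^ (d * j) * V') =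
          (D * A) + 2 ^ k0 * (D * G) + 2 ^ k0 * 2 ^ (d * j) * (D * V') := by ring
      rw [e2, hV1]
      have e3 : (D : ℤ) * A = R' * 2 ^ k0 + a - R := by linarith
      have e4 : (D : ℤ) * G = R' * 2 ^ (d * j) - R' := by linarith
      rw [e3, e4]; ring
    · rw [P_split _ _ _ hlt, P_split _ _ _ h2, hV2, hG3]
      generalize (run D Q k0 inv R' as).2.1 = s0
      generalize (run D Q k0 inv R' as).2.2 = s1
      have : j * (P (R' * Q) + s1) = j * P (R' * Q) + j * s1 := by ring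
      rw [this]; omega

/-- One certificate: column `m`, exponent `e` of `2` in `m!`, period `d`, first exponent `k0`. -/
structure Cert where
  m : ℕ
  e : ℕ
  d : ℕ
  k0 : ℕ

/-- The check of one certificate. -/
def certOK (t r : ℤ) (c : Cert) : Bool :=
  let D := c.m.factorial / 2 ^ c.e
  let Q := (2 ^ c.d - 1) / D
  let inv := 2 ^ (c.d - c.k0 % c.d) % D
  let z := run D Q c.k0 inv 0 (coeffs t r c.m)
  decide (D * 2 ^ c.e = c.m.factorial) && decide (D * Q + 1 = 2 ^ c.d) && decide (1 ≤ c.m) &&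
    z.1 && decide (z.2.1 % 2 = 0) && decide (z.2.2 % 2 = 0)

theorem certOK_sound (t r : ℤ) (c : Cert) (h : certOK t r c = true) (n j : ℕ)
    (hn : (n : ℤ) = t * 2 ^ (c.k0 + c.d * j) + r) (hm : c.m ≤ n) :
    1 ≤ c.m ∧ P (n.choose c.m) = 0 := by
  obtain ⟨m, e, d, k0⟩ := c
  simp only [certOK, Bool.and_eq_true, decide_eq_true_eq] at h
  simp only at hn hm ⊢
  obtain ⟨⟨⟨⟨⟨h1, h2⟩, h3⟩, h4⟩, h5⟩, h6⟩ := h
  refine ⟨h3, ?_⟩
  obtain ⟨D, hD⟩ : ∃ D, D = m.factorial / 2 ^ e := ⟨_, rfl⟩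
  rw [← hD] at h1 h2 h4 h5 h6
  obtain ⟨Q, hQ⟩ : ∃ Q, Q = (2 ^ d - 1) / D := ⟨_, rfl⟩
  rw [← hQ] at h2 h4 h5 h6
  obtain ⟨V, hV1, hV2⟩ := run_sound D Q k0 _ d h2 (coeffs t r m) 0 h4 j
  have hprod : ((n.descFactorial m : ℕ) : ℤ) = ev (coeffs t r m) (2 ^ (k0 + d * j)) := by
    rw [ev_coeffs, Nat.descFactorial_eq_prod_range, Nat.cast_prod]
    refine Finset.prod_congr rfl fun i hi => ?_
    have hi' : i ≤ n := (Finset.mem_range.mp hi).le.trans hm
    rw [Nat.cast_sub hi', hn]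
  have hDpos : 0 < D := by
    rcases Nat.eq_zero_or_pos D with h0 | h0
    · rw [h0, Nat.zero_mul] at h1
      exact absurd h1.symm (Nat.factorial_ne_zero m)
    · exact h0
  have hV : V = 2 ^ e * n.choose m := by
    have e1 : (D : ℤ) * V = (D : ℤ) * (2 ^ e * n.choose m : ℕ) := by
      rw [hV1, ← hprod, Nat.descFactorial_eq_factorial_mul_choose, ← h1]
      push_cast; ring
    exact_mod_cast mul_left_cancel₀ (by exact_mod_cast hDpos.ne') e1
  rw [hV, P_shift] at hV2
  rw [hV2]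
  have : j * (run D Q k0 (2 ^ (d - k0 % d) % D) 0 (coeffs t r m)).2.2 % 2 = 0 := by
    rw [Nat.mul_mod, h6, Nat.mul_zero, Nat.zero_mod]
  omega

/-- Search for a column with an even number of ones: `c` is `n.choose i`. -/
def srch (n : ℕ) : ℕ → ℕ → ℕ → Bool
  | 0, _, _ => false
  | f + 1, i, c =>
    let c' := c * (n - i) / (i + 1)
    (decide (i + 1 ≤ n) && decide (c' < 2 ^ (2 ^ 13)) && decide (par 13 c' = 0)) ||
      srch n f (i + 1) c'

theorem srch_sound (n : ℕ) : ∀ (f i c : ℕ), c = n.choose i → srch n f i c = true →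
    ∃ m, 1 ≤ m ∧ m ≤ n ∧ P (n.choose m) = 0
  | 0, i, c, _, h => by simp [srch] at h
  | f + 1, i, c, hc, h => by
    have hc' : c * (n - i) / (i + 1) = n.choose (i + 1) := by
      rw [hc, ← Nat.choose_succ_right_eq, Nat.mul_div_cancel _ (Nat.succ_pos i)]
    simp only [srch, hc', Bool.or_eq_true, Bool.and_eq_true, decide_eq_true_eq] at h
    rcases h with ⟨⟨h1, h2⟩, h3⟩ | h
    · exact ⟨i + 1, by omega, h1, by rw [← par_spec 13 _ h2]; exact h3⟩
    · exact srch_sound n f (i + 1) _ rfl h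

/-- Direct check of one row. -/
def small (z : ℤ) : Bool :=
  decide (z < 0) || [0, 1, 2, 7, 8].contains z.toNat || srch z.toNat 40 0 1

/-- The data of one family of rows `t * 2 ^ k + r`. -/
structure Fam where
  K : ℕ
  M : ℕ
  certs : List Cert

/-- The check of one family; `ex` lists exceptional classes of `k` modulo `3240`. -/
def famOK (t r : ℤ) (ex : List ℕ) (F : Fam) : Bool :=
  decide (0 < t) && decide (13 ≤ t * 2 ^ F.K + r) && decide (0 < F.M) &&
  (decide (ex = []) || decide (F.M % 3240 = 0)) &&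
  (List.range F.K).all (fun k => small (t * 2 ^ k + r)) &&
  F.certs.all (fun c => decide (c.m ≤ 13) && certOK t r c) &&
  (List.range F.M).all (fun i => ex.contains ((F.K + i) % 3240) ||
    F.certs.any (fun c => decide (F.M % c.d = 0) && decide (c.k0 ≤ F.K + i) &&
      decide ((F.K + i - c.k0) % c.d = 0)))

theorem famOK_sound (t r : ℤ) (ex : List ℕ) (F : Fam) (h : famOK t r ex F = true) (n k : ℕ)
    (hn : (n : ℤ) = t * 2 ^ k + r) (hk : k < F.K ∨ k % 3240 ∉ ex) :
    (n = 0 ∨ n = 1 ∨ n = 2 ∨ n = 7 ∨ n = 8) ∨ ∃ m, 1 ≤ m ∧ m ≤ n ∧ P (n.choose m) = 0 := by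
  obtain ⟨K, M, certs⟩ := F
  simp only [famOK, Bool.and_eq_true, decide_eq_true_eq, List.all_eq_true, List.mem_range] at h
  obtain ⟨⟨⟨⟨⟨⟨ht, hK⟩, hM⟩, hex⟩, hs⟩, hc⟩, hcov⟩ := h
  rcases Nat.lt_or_ge k K with hlt | hge
  · have h1 := hs k hlt
    rw [← hn] at h1
    simp only [small, Bool.or_eq_true, decide_eq_true_eq, Int.toNat_natCast] at h1
    rcases h1 with (h1 | h1) | h1
    · omega
    · left
      simpa using h1
    · right
      exact srch_sound n 40 0 1 (by simp) h1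
  · right
    have hk : k % 3240 ∉ ex := by
      rcases hk with hk | hk
      · exact absurd hk (by simpa using hge)
      · exact hk
    have hi : (k - K) % M < M := Nat.mod_lt _ hM
    have hcv := hcov _ hi
    have hkK : k = K + (k - K) % M + M * ((k - K) / M) := by
      have := Nat.mod_add_div (k - K) M
      omega
    obtain ⟨c0, hc0⟩ : ∃ c0, c0 = K + (k - K) % M := ⟨_, rfl⟩
    rw [← hc0] at hcv hkK
    obtain ⟨w, hw⟩ : ∃ w, w = (k - K) / M := ⟨_, rfl⟩
    rw [← hw] at hkK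
    simp only [Bool.or_eq_true, List.any_eq_true, Bool.and_eq_true, decide_eq_true_eq] at hcv
    rcases hcv with hcv | ⟨c, hcm, ⟨hd, hk0⟩, hmod⟩
    · exfalso
      rcases Bool.or_eq_true _ _ |>.mp hex with h2 | h2
      · rw [decide_eq_true_eq] at h2
        rw [h2] at hcv; simp at hcv
      · rw [decide_eq_true_eq] at h2
        apply hk
        have e : k % 3240 = c0 % 3240 := by
          obtain ⟨q, hq⟩ := Nat.dvd_of_mod_eq_zero h2
          rw [hkK, hq, mul_assoc, Nat.add_mul_mod_self_left]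
        rw [e]
        simpa using hcv
    · have hcc := hc c hcm
      obtain ⟨hm13, hok⟩ := hcc
      obtain ⟨q, hq⟩ := Nat.dvd_of_mod_eq_zero hd
      obtain ⟨p, hp⟩ := Nat.dvd_of_mod_eq_zero hmod
      have hkj : k = c.k0 + c.d * (p + q * w) := by
        have e1 : c0 = c.k0 + c.d * p := by omega
        have e2 : M * w = c.d * (q * w) := by rw [hq, mul_assoc]
        rw [hkK, e2, e1]; ring
      have hbig : c.m ≤ n := by
        have h2 : (2 : ℤ) ^ K ≤ 2 ^ k := pow_le_pow_right₀ (by norm_num) hge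
        have h3 : t * 2 ^ K ≤ t * 2 ^ k := mul_le_mul_of_nonneg_left h2 ht.le
        have h4 : (13 : ℤ) ≤ n := by rw [hn]; linarith
        have : 13 ≤ n := by exact_mod_cast h4
        omega
      rw [hkj] at hn
      obtain ⟨h5, h6⟩ := certOK_sound t r c hok n _ hn hbig
      exact ⟨c.m, h5, hbig, h6⟩

/-- Check of `c` families, starting with number `i0`, of a table starting at `r = r0`. -/
def chunk (exc : ℤ → ℤ → List ℕ) (t r0 : ℤ) (dat : List Fam) (i0 c : ℕ) : Bool :=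
  (List.range c).all (fun i =>
    let r := r0 + ((i0 + i : ℕ) : ℤ)
    let F := dat.getD (i0 + i) ⟨0, 0, []⟩
    (decide (exc t r = []) || decide (64 ≤ F.K)) && famOK t r (exc t r) F)

theorem chunk_sound (exc : ℤ → ℤ → List ℕ) (t r0 : ℤ) (dat : List Fam) (i0 c : ℕ)
    (h : chunk exc t r0 dat i0 c = true) (i : ℕ) (hi1 : i0 ≤ i) (hi2 : i < i0 + c) (n k : ℕ)
    (hn : (n : ℤ) = t * 2 ^ k + (r0 + i)) (hk : k < 64 ∨ k % 3240 ∉ exc t (r0 + i)) :
    (n = 0 ∨ n = 1 ∨ n = 2 ∨ n = 7 ∨ n = 8) ∨ ∃ m, 1 ≤ m ∧ m ≤ n ∧ P (n.choose m) = 0 := by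
  simp only [chunk, List.all_eq_true, List.mem_range, Bool.and_eq_true, Bool.or_eq_true,
    decide_eq_true_eq] at h
  obtain ⟨h1, h2⟩ := h (i - i0) (by omega)
  have e : i0 + (i - i0) = i := by omega
  rw [e] at h1 h2
  refine famOK_sound _ _ _ _ h2 n k hn ?_
  rcases hk with hk | hk
  · rcases h1 with h1 | h1
    · right; rw [h1]; simp
    · left; omega
  · right; exact hk

end Pool.Agent.LibPas
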