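import Mathlib

/-!
# Residue classes left open

For the rows `t * 2 ^ k + r` of Pascal's triangle with `t` odd, `1 ≤ t ≤ 15` and `|r| ≤ 32`.
-/

set_option autoImplicit false

namespace Pool.Agent.LibPas

/-- The residues of `k` modulo `3240` which are left open for the rows `t * 2 ^ k + r`. -/
def exc (t r : ℤ) : List ℕ :=
  if t = 1 ∧ r = -31 then [1153, 2233, 2449, 2953]
  else if t = 1 ∧ r = 0 then [209, 545, 2705, 2801]
  else if t = 5 ∧ r = -3 then [47, 395, 767, 827, 1043, 1307, 1667, 1955, 2339, 2447, 2879, 3035]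
  else if t = 5 ∧ r = 13 then [1, 13, 1093, 1621]
  else if t = 7 ∧ r = -10 then [1005, 1237, 1965, 2005, 2229, 2301, 2389, 3165]
  else if t = 7 ∧ r = 5 then [432, 624, 2592]
  else if t = 7 ∧ r = 9 then [16, 1408, 2488]
  else if t = 7 ∧ r = 18 then [2301]
  else if t = 11 ∧ r = -23 then [78, 230, 390, 462, 606, 990, 1142, 1206, 1542, 2022, 2070, 2286, 2766, 3150]
  else if t = 11 ∧ r = -1 then [93, 741, 1173, 1437, 1605, 2517, 2685]
  else if t = 11 ∧ r = 9 then [28, 244, 1140, 1372, 1428, 2404, 2508, 2548]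
  else if t = 11 ∧ r = 17 then [1882, 2410]
  else if t = 11 ∧ r = 27 then [232, 693, 712, 1101, 1317, 1432, 1485, 2397, 2565, 2613, 3045, 3093]
  else if t = 13 ∧ r = -16 then [1145]
  else if t = 13 ∧ r = -9 then [2134, 2446, 2566]
  else if t = 13 ∧ r = 29 then [144, 216, 360, 456, 744, 864, 2304, 2376, 2448, 2880]
  else if t = 15 ∧ r = -30 then [38, 98, 158, 218, 278, 338, 398, 458, 518, 578, 638, 698, 758, 818, 878, 938,
    998, 1058, 1118, 1178, 1238, 1298, 1358, 1418, 1478, 1538, 1598, 1658, 1718,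
    1778, 1838, 1898, 1958, 2018, 2078, 2138, 2198, 2258, 2318, 2378, 2438, 2498,
    2558, 2618, 2678, 2738, 2798, 2858, 2918, 2978, 3038, 3098, 3158, 3218]
  else []

end Pool.Agent.LibPas
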