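import Pool.Agent.LibPas.Data
import Pool.Agent.LibPas.Exc

/-!
# Kernel check of the certificates (part A)
-/

set_option autoImplicit false

namespace Pool.Agent.LibPas

theorem chk1_0 : chunk exc 1 (-32) dat1 0 16 = true := by decide +kernel

theorem chk1_16 : chunk exc 1 (-32) dat1 16 16 = true := by decide +kernel

theorem chk1_32 : chunk exc 1 (-32) dat1 32 1 = true := by decide +kernel

theorem chk1_33 : chunk exc 1 (-32) dat1 33 16 = true := by decide +kernel

theorem chk1_49 : chunk exc 1 (-32) dat1 49 16 = true := by decide +kernel

theorem chk3_0 : chunk exc 3 (-32) dat3 0 16 = true := by decide +kernel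

theorem chk3_16 : chunk exc 3 (-32) dat3 16 16 = true := by decide +kernel

theorem chk3_32 : chunk exc 3 (-32) dat3 32 1 = true := by decide +kernel

theorem chk3_33 : chunk exc 3 (-32) dat3 33 16 = true := by decide +kernel

theorem chk3_49 : chunk exc 3 (-32) dat3 49 16 = true := by decide +kernel

end Pool.Agent.LibPas
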