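import Pool.Agent.LibPas.Data
import Pool.Agent.LibPas.Exc

/-!
# Kernel check of the certificates (part B)
-/

set_option autoImplicit false

namespace Pool.Agent.LibPas

theorem chk5_0 : chunk exc 5 (-32) dat5 0 16 = true := by decide +kernel

theorem chk5_16 : chunk exc 5 (-32) dat5 16 16 = true := by decide +kernel

theorem chk5_32 : chunk exc 5 (-32) dat5 32 1 = true := by decide +kernel

theorem chk5_33 : chunk exc 5 (-32) dat5 33 16 = true := by decide +kernel

theorem chk5_49 : chunk exc 5 (-32) dat5 49 16 = true := by decide +kernel

theorem chk15_0 : chunk exc 15 (-32) dat15 0 16 = true := by decide +kernel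

theorem chk15_16 : chunk exc 15 (-32) dat15 16 16 = true := by decide +kernel

theorem chk15_32 : chunk exc 15 (-32) dat15 32 1 = true := by decide +kernel

theorem chk15_33 : chunk exc 15 (-32) dat15 33 16 = true := by decide +kernel

theorem chk15_49 : chunk exc 15 (-32) dat15 49 16 = true := by decide +kernel

end Pool.Agent.LibPas
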