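import Pool.Agent.LibPas.Data
import Pool.Agent.LibPas.Exc

/-!
# Kernel check of the certificates (part C)
-/

set_option autoImplicit false

namespace Pool.Agent.LibPas

theorem chk7_0 : chunk exc 7 (-32) dat7 0 16 = true := by decide +kernel

theorem chk7_16 : chunk exc 7 (-32) dat7 16 16 = true := by decide +kernel

theorem chk7_32 : chunk exc 7 (-32) dat7 32 1 = true := by decide +kernel

theorem chk7_33 : chunk exc 7 (-32) dat7 33 16 = true := by decide +kernel

theorem chk7_49 : chunk exc 7 (-32) dat7 49 16 = true := by decide +kernel

theorem chk9_0 : chunk exc 9 (-32) dat9 0 16 = true := by decide +kernel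

theorem chk9_16 : chunk exc 9 (-32) dat9 16 16 = true := by decide +kernel

theorem chk9_32 : chunk exc 9 (-32) dat9 32 1 = true := by decide +kernel

theorem chk9_33 : chunk exc 9 (-32) dat9 33 16 = true := by decide +kernel

theorem chk9_49 : chunk exc 9 (-32) dat9 49 16 = true := by decide +kernel

end Pool.Agent.LibPas
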