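import Pool.Agent.LibPas.Data
import Pool.Agent.LibPas.Exc

/-!
# Kernel check of the certificates (part D)
-/

set_option autoImplicit false

namespace Pool.Agent.LibPas

theorem chk11_0 : chunk exc 11 (-32) dat11 0 16 = true := by decide +kernel

theorem chk11_16 : chunk exc 11 (-32) dat11 16 16 = true := by decide +kernel

theorem chk11_32 : chunk exc 11 (-32) dat11 32 1 = true := by decide +kernel

theorem chk11_33 : chunk exc 11 (-32) dat11 33 16 = true := by decide +kernel

theorem chk11_49 : chunk exc 11 (-32) dat11 49 16 = true := by decide +kernel

theorem chk13_0 : chunk exc 13 (-32) dat13 0 16 = true := by decide +kernel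

theorem chk13_16 : chunk exc 13 (-32) dat13 16 16 = true := by decide +kernel

theorem chk13_32 : chunk exc 13 (-32) dat13 32 1 = true := by decide +kernel

theorem chk13_33 : chunk exc 13 (-32) dat13 33 16 = true := by decide +kernel

theorem chk13_49 : chunk exc 13 (-32) dat13 49 16 = true := by decide +kernel

end Pool.Agent.LibPas
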