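import Pool.Agent.LibPas.ColTwo

/-!
# Columns one and two of the rows `t * 2 ^ k + s` and `t * 2 ^ k - s`
-/

set_option autoImplicit false

namespace Pool.Agent.LibPas

/-- Column `1` of row `t * 2 ^ k + s`. -/
theorem col_one_above (t s k : ℕ) (h : s < 2 ^ k) :
    P (t * 2 ^ k + s) = (P t + P s) % 2 := by
  have e : t * 2 ^ k + s = s + 2 ^ k * t := by ring
  rw [e, P_split k _ _ h]
  omega

/-- Column `1` of row `t * 2 ^ k - s`. -/
theorem col_one_below (t s k : ℕ) (ht : 1 ≤ t) (hs : 1 ≤ s) (h : s ≤ 2 ^ k) :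
    P (t * 2 ^ k - s) = (k + P (t - 1) + P (s - 1)) % 2 := by
  obtain ⟨u, rfl⟩ : ∃ u, t = u + 1 := ⟨t - 1, by omega⟩
  obtain ⟨v, rfl⟩ : ∃ v, s = v + 1 := ⟨s - 1, by omega⟩
  have e : (u + 1) * 2 ^ k - (v + 1) = (2 ^ k - 1 - v) + 2 ^ k * u := by
    have : (u + 1) * 2 ^ k = 2 ^ k + 2 ^ k * u := by ring
    rw [this]
    omega
  rw [e, P_split k _ _ (by omega), P_compl k v (by omega)]
  simp only [Nat.add_sub_cancel]
  omega

/-- Column `2` of row `t * 2 ^ k + s`. -/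
theorem col_two_above (t s k : ℕ) (hs : 1 ≤ s) (h1 : t * (2 * s - 1) < 2 ^ k)
    (h2 : s * (s - 1) < 2 ^ k) :
    P ((t * 2 ^ k + s).choose 2) =
      (P (t ^ 2) + P (t * (2 * s - 1)) + P (s * (s - 1))) % 2 := by
  obtain ⟨v, rfl⟩ : ∃ v, s = v + 1 := ⟨s - 1, by omega⟩
  have e1 : 2 * (v + 1) - 1 = 2 * v + 1 := by omega
  have e2 : v + 1 - 1 = v := by omega
  rw [e1] at h1
  rw [e2] at h2
  rw [e1, e2]
  obtain ⟨n, hn⟩ : ∃ n, n = t * 2 ^ k + v := ⟨_, rfl⟩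
  have hn' : t * 2 ^ k + (v + 1) = n + 1 := by omega
  rw [hn']
  have hch : 2 * (n + 1).choose 2 = (n + 1) * n := by
    rw [Nat.choose_two_right, Nat.add_sub_cancel]
    exact Nat.mul_div_cancel' (even_iff_two_dvd.mp (by
      rw [mul_comm]; exact Nat.even_mul_succ_self n))
  have hP : P ((n + 1).choose 2) = P ((n + 1) * n) := by
    rw [← hch]
    exact (P_shift 1 _).symm
  have hdec : (n + 1) * n = (v + 1) * v + 2 ^ k * (t * (2 * v + 1) + 2 ^ k * t ^ 2) := by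
    rw [hn]; ring
  rw [hP, hdec, P_split k _ _ h2, P_split k _ _ h1]
  omega

end Pool.Agent.LibPas
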