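import Pool.Agent.LibPas.Basic

/-!
# Column two of the rows `t * 2 ^ k - s`
-/

set_option autoImplicit false

namespace Pool.Agent.LibPas

/-- Parity of ones of `2 ^ k - 1 - v`. -/
theorem P_compl : ∀ (k v : ℕ), v < 2 ^ k → P (2 ^ k - 1 - v) = (k + P v) % 2
  | 0, v, h => by
    have : v = 0 := by simpa using h
    subst this; simp [P_zero]
  | k + 1, v, h => by
    have h2 : v / 2 < 2 ^ k := by rw [pow_succ] at h; omega
    have ih := P_compl k (v / 2) h2
    have e : 2 ^ (k + 1) - 1 - v = 2 * (2 ^ k - 1 - v / 2) + (1 - v % 2) := by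
      rw [pow_succ] at h ⊢; omega
    rw [e, P_bit _ _ (by omega), ih, P_half v]
    have := P_lt (v / 2)
    omega

/-- The parity of the number of ones of the entry in column `2` of row `t * 2 ^ k - s`. -/
theorem col_two (t s k : ℕ) (ht : 1 ≤ t) (hk : 1 ≤ k) (h1 : t * (2 * s + 1) ≤ 2 ^ k)
    (h2 : s * (s + 1) < 2 ^ k) :
    2 ≤ t * 2 ^ k - s ∧
    P ((t * 2 ^ k - s).choose 2) =
      (P (t ^ 2 - 1) + P (t * (2 * s + 1) - 1) + P (s * (s + 1)) + k) % 2 := by
  obtain ⟨X, hX⟩ : ∃ X, X = 2 ^ k := ⟨_, rfl⟩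
  have hX2 : 2 ≤ X := by
    rw [hX]
    calc 2 = 2 ^ 1 := by norm_num
      _ ≤ 2 ^ k := Nat.pow_le_pow_right (by norm_num) hk
  have hge : s + 2 ≤ t * X := by
    have h3 : X ≤ t * X := Nat.le_mul_of_pos_left _ ht
    have h4 : 2 * s + 1 ≤ t * (2 * s + 1) := Nat.le_mul_of_pos_left _ ht
    rcases Nat.eq_zero_or_pos s with h0 | h0
    · omega
    · rw [← hX] at h1; omega
  refine ⟨by rw [← hX]; omega, ?_⟩
  obtain ⟨n, hn⟩ : ∃ n, n + 1 + s = t * X := ⟨t * X - s - 1, by omega⟩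
  have hn' : t * 2 ^ k - s = n + 1 := by rw [← hX]; omega
  rw [hn']
  have hch : 2 * (n + 1).choose 2 = (n + 1) * n := by
    rw [Nat.choose_two_right, Nat.add_sub_cancel]
    exact Nat.mul_div_cancel' (even_iff_two_dvd.mp (by
      rw [mul_comm]; exact Nat.even_mul_succ_self n))
  have hP : P ((n + 1).choose 2) = P ((n + 1) * n) := by
    rw [← hch]
    exact (P_shift 1 _).symm
  rw [hP]
  -- block decomposition
  obtain ⟨w, hw⟩ : ∃ w, w + 1 = t * (2 * s + 1) := ⟨t * (2 * s + 1) - 1, by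
    have : 1 ≤ t * (2 * s + 1) := Nat.mul_pos ht (by omega)
    omega⟩
  obtain ⟨q, hq⟩ : ∃ q, q + 1 = t ^ 2 := ⟨t ^ 2 - 1, by
    have : 1 ≤ t ^ 2 := Nat.pow_pos ht
    omega⟩
  have hwX : w < X := by rw [← hX] at h1; omega
  have hdec : (n + 1) * n = s * (s + 1) + X * ((X - 1 - w) + X * q) := by
    obtain ⟨y, hy⟩ : ∃ y, y + 1 + w = X := ⟨X - 1 - w, by omega⟩
    have e1 : X - 1 - w = y := by omega
    rw [e1]
    have z1 : (n : ℤ) = t * X - s - 1 := by
      have : ((n + 1 + s : ℕ) : ℤ) = ((t * X : ℕ) : ℤ) := by rw [hn]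
      push_cast at this; linarith
    have z2 : (y : ℤ) = X - 1 - w := by
      have : ((y + 1 + w : ℕ) : ℤ) = (X : ℤ) := by rw [hy]
      push_cast at this; linarith
    have z3 : (w : ℤ) = t * (2 * s + 1) - 1 := by
      have : ((w + 1 : ℕ) : ℤ) = ((t * (2 * s + 1) : ℕ) : ℤ) := by rw [hw]
      push_cast at this; linarith
    have z4 : (q : ℤ) = t ^ 2 - 1 := by
      have : ((q + 1 : ℕ) : ℤ) = ((t ^ 2 : ℕ) : ℤ) := by rw [hq]
      push_cast at this; linarith
    have z5 : (((n + 1) * n : ℕ) : ℤ) = ((s * (s + 1) + X * (y + X * q) : ℕ) : ℤ) := by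
      push_cast
      rw [z2, z3, z4, z1]; ring
    exact_mod_cast z5
  rw [hdec, hX, P_split k _ _ h2]
  rw [P_split k _ _ (by rw [← hX]; omega), P_compl k w (by rw [← hX]; exact hwX)]
  have e2 : t ^ 2 - 1 = q := by omega
  have e3 : t * (2 * s + 1) - 1 = w := by omega
  rw [e2, e3]
  omega

end Pool.Agent.LibPas
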